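import Mathlib

/-! Strong arboricity of degenerate graphs of large girth: definitions. -/

set_option autoImplicit false

namespace Pool.Agent.KS6_37.SA

open SimpleGraph

variable {V : Type}

/-- no cycle of `G` is monochromatic -/
def Woody (G : SimpleGraph V) (c : Sym2 V → ℕ) : Prop :=
  ∀ (u : V) (p : G.Walk u u), p.IsCycle → ¬ ∃ i, ∀ e ∈ p.edges, c e = i

/-- no broken cycle of `G` (a path with at least two edges whose end points are adjacent)
is monochromatic -/
def StronglyWoody (G : SimpleGraph V) (c : Sym2 V → ℕ) : Prop :=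
  ∀ (u v : V) (p : G.Walk u v), p.IsPath → 2 ≤ p.length → G.Adj u v →
    ¬ ∃ i, ∀ e ∈ p.edges, c e = i

/-- the arboricity: the least `r` such that the edges have a woody colouring with the colours
`0, …, r - 1` -/
noncomputable def arb (G : SimpleGraph V) : ℕ :=
  sInf {r | ∃ c : Sym2 V → ℕ, (∀ e ∈ G.edgeSet, c e < r) ∧ Woody G c}

/-- the strong arboricity: the least `r` such that the edges have a strongly woody colouring with
the colours `0, …, r - 1` -/
noncomputable def zeta (G : SimpleGraph V) : ℕ :=
  sInf {r | ∃ c : Sym2 V → ℕ, (∀ e ∈ G.edgeSet, c e < r) ∧ StronglyWoody G c}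

/-- the finite graph `G` is `k`-degenerate: its vertices have an ordering in which each vertex has
at most `k` neighbours before it -/
def Degenerate (G : SimpleGraph V) (k : ℕ) : Prop :=
  ∃ f : V → ℕ, Function.Injective f ∧ ∀ v, {w | G.Adj v w ∧ f w < f v}.ncard ≤ k

end Pool.Agent.KS6_37.SA
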