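import Mathlib
import Pool.Agent.KS6_37.SA.Defs

set_option autoImplicit false

namespace Pool.Agent.KS6_37.SA

open SimpleGraph

variable {V : Type}

lemma reachable_sup_edge (G : SimpleGraph V) (a b u v : V) :
    (G ⊔ edge a b).Reachable u v → G.Reachable u v ∨ (G.Reachable u a ∧ G.Reachable b v) ∨
      (G.Reachable u b ∧ G.Reachable a v) := by
  rintro ⟨p⟩
  induction p with
  | nil => exact Or.inl (Reachable.refl _)
  | cons h p ih =>
    rename_i x y z
    rw [sup_adj, edge_adj] at h
    rcases h with h | ⟨h1, h2⟩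
    · have hxy : G.Reachable x y := h.reachable
      rcases ih with h | ⟨h1, h2⟩ | ⟨h1, h2⟩
      · exact Or.inl (hxy.trans h)
      · exact Or.inr (Or.inl ⟨hxy.trans h1, h2⟩)
      · exact Or.inr (Or.inr ⟨hxy.trans h1, h2⟩)
    · rcases h1 with ⟨rfl, rfl⟩ | ⟨rfl, rfl⟩
      · rcases ih with h | ⟨h1, h2⟩ | ⟨h1, h2⟩
        · exact Or.inr (Or.inl ⟨Reachable.refl _, h⟩)
        · exact Or.inr (Or.inl ⟨Reachable.refl _, h2⟩)
        · exact Or.inl h2
      · rcases ih with h | ⟨h1, h2⟩ | ⟨h1, h2⟩
        · exact Or.inr (Or.inr ⟨Reachable.refl _, h⟩)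
        · exact Or.inl h2
        · exact Or.inr (Or.inr ⟨Reachable.refl _, h2⟩)

/-- adding an edge between different components lowers the number of components -/
lemma card_comp_sup_edge [Finite V] (G : SimpleGraph V) (a b : V) (h : ¬ G.Reachable a b) :
    Nat.card (G ⊔ edge a b).ConnectedComponent + 1 ≤ Nat.card G.ConnectedComponent := by
  classical
  have := Fintype.ofFinite V
  have hle : G ≤ G ⊔ edge a b := le_sup_left
  have hne : a ≠ b := fun e => h (e ▸ Reachable.refl _)
  have hab : (G ⊔ edge a b).Reachable a b := by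
    apply Adj.reachable
    rw [sup_adj, edge_adj]
    exact Or.inr ⟨Or.inl ⟨rfl, rfl⟩, hne⟩
  let f : {C : G.ConnectedComponent // C ≠ G.connectedComponentMk b} →
      (G ⊔ edge a b).ConnectedComponent := fun C => C.1.map (Hom.ofLE hle)
  have hf : Function.Surjective f := by
    intro D
    induction D using ConnectedComponent.ind with | _ v => ?_
    by_cases hv : G.Reachable v b
    · refine ⟨⟨G.connectedComponentMk a, ?_⟩, ?_⟩
      · rw [Ne, ConnectedComponent.eq]; exact h
      · simp only [f, ConnectedComponent.map_mk, Hom.coe_ofLE, id_eq, ConnectedComponent.eq]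
        exact hab.trans (hv.symm.mono hle)
    · refine ⟨⟨G.connectedComponentMk v, ?_⟩, ?_⟩
      · rw [Ne, ConnectedComponent.eq]; exact hv
      · simp [f]
  have h1 := Nat.card_le_card_of_surjective f hf
  rw [Nat.card_eq_fintype_card, Nat.card_eq_fintype_card, Fintype.card_subtype_compl] at h1
  simp only [Fintype.card_unique] at h1
  have : 0 < Fintype.card G.ConnectedComponent :=
    Fintype.card_pos_iff.2 ⟨G.connectedComponentMk b⟩
  rw [Nat.card_eq_fintype_card, Nat.card_eq_fintype_card]
  omega

/-- in a forest the number of edges and the number of components add up to at most the number of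
vertices -/
lemma forest_count [Finite V] (n : ℕ) : ∀ H : SimpleGraph V, H.edgeSet.ncard = n → H.IsAcyclic →
    n + Nat.card H.ConnectedComponent ≤ Nat.card V := by
  induction n with
  | zero =>
    intro H h0 _
    rw [zero_add]
    exact Nat.card_le_card_of_surjective (fun v => H.connectedComponentMk v) fun C => by
      induction C using ConnectedComponent.ind with | _ v => exact ⟨v, rfl⟩
  | succ n ih =>
    intro H hn hH
    have hne : H.edgeSet.Nonempty := Set.nonempty_of_ncard_ne_zero (by omega)
    obtain ⟨e, he⟩ := hne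
    induction e using Sym2.ind with
    | _ a b =>
      have hbr := isAcyclic_iff_forall_isBridge.1 hH he
      rw [isBridge_iff] at hbr
      have hc : (H.deleteEdges {s(a, b)}).edgeSet.ncard = n := by
        rw [edgeSet_deleteEdges, Set.ncard_sdiff_singleton_of_mem he]
        omega
      have h1 := ih _ hc (hH.anti (deleteEdges_le _))
      have h2 := card_comp_sup_edge _ a b hbr
      have h3 : H.deleteEdges {s(a, b)} ⊔ edge a b = H := by
        ext x y
        rw [sup_adj, deleteEdges_adj, edge_adj, Set.mem_singleton_iff, Sym2.eq_iff]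
        constructor
        · rintro (h | ⟨⟨rfl, rfl⟩ | ⟨rfl, rfl⟩, _⟩)
          · exact h.1
          · exact he
          · exact he.symm
        · intro h
          by_cases h' : x = a ∧ y = b ∨ x = b ∧ y = a
          · exact Or.inr ⟨h', h.ne⟩
          · exact Or.inl ⟨h, h'⟩
      rw [h3] at h2
      omega

/-- a colour class -/
def cls (H : SimpleGraph V) (c : Sym2 V → ℕ) (i : ℕ) : SimpleGraph V :=
  H ⊓ fromEdgeSet {e | c e = i}

lemma mem_cls {H : SimpleGraph V} {c : Sym2 V → ℕ} {i : ℕ} {e : Sym2 V} :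
    e ∈ (cls H c i).edgeSet ↔ e ∈ H.edgeSet ∧ c e = i := by
  induction e using Sym2.ind with
  | _ a b =>
    rw [cls, mem_edgeSet, mem_edgeSet, inf_adj, fromEdgeSet_adj, Set.mem_ofPred_eq]
    exact ⟨fun h => ⟨h.1, h.2.1⟩, fun h => ⟨h.1, h.2, h.1.ne⟩⟩

lemma cls_le (H : SimpleGraph V) (c : Sym2 V → ℕ) (i : ℕ) : cls H c i ≤ H := inf_le_left

lemma count [Finite V] (H : SimpleGraph V) (c : Sym2 V → ℕ) (r : ℕ)
    (hr : ∀ e ∈ H.edgeSet, c e < r) (hc : ∀ i, (cls H c i).IsAcyclic) :
    H.edgeSet.ncard + ∑ i ∈ Finset.range r, Nat.card (cls H c i).ConnectedComponent ≤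
      r * Nat.card V := by
  have h1 : H.edgeSet ⊆ ⋃ i ∈ Finset.range r, (cls H c i).edgeSet := by
    intro e he
    simp only [Set.mem_iUnion, Finset.mem_range]
    exact ⟨c e, hr e he, mem_cls.2 ⟨he, rfl⟩⟩
  have h2 : H.edgeSet.ncard ≤ ∑ i ∈ Finset.range r, (cls H c i).edgeSet.ncard :=
    (Set.ncard_le_ncard h1).trans (Finset.set_ncard_biUnion_le _ _)
  have h3 : ∑ i ∈ Finset.range r, ((cls H c i).edgeSet.ncard +
      Nat.card (cls H c i).ConnectedComponent) ≤ r * Nat.card V := by
    refine (Finset.sum_le_card_nsmul _ _ (Nat.card V) fun i _ => ?_).trans (by simp)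
    exact forest_count _ _ rfl (hc i)
  rw [Finset.sum_add_distrib] at h3
  omega

end Pool.Agent.KS6_37.SA
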