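import Mathlib
import Pool.Agent.KS6_37.SA.Defs

set_option autoImplicit false

namespace Pool.Agent.KS6_37.SA

open SimpleGraph Finset

variable {V : Type}

/-- the number of colours below `k + 1` whose value is larger than `j` -/
def big (k : ℕ) (D : ℕ → ℕ) (j : ℕ) : ℕ := ((range (k + 1)).filter fun i => j < D i).card

lemma pick [DecidableEq V] (k : ℕ) (D : V → ℕ → ℕ) (P : Finset V) (hP : P.card ≤ k)
    (hD : ∀ w ∈ P, ∀ j, big k (D w) j ≤ k - j) :
    ∃ (c : V → ℕ) (E : ℕ → ℕ), (∀ w ∈ P, c w < k + 1) ∧ Set.InjOn c P ∧
      (∀ w ∈ P, D w (c w) < E (c w)) ∧ ∀ j, big k E j ≤ P.card - j := by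
  induction P using Finset.induction_on with
  | empty => exact ⟨fun _ => 0, fun _ => 0, by simp, by simp, by simp, fun j => by simp [big]⟩
  | insert w P hw ih =>
    rw [card_insert_of_notMem hw] at hP ⊢
    obtain ⟨c, E, h1, h2, h3, h4⟩ := ih (by omega) fun w' hw' => hD w' (mem_insert_of_mem hw')
    obtain ⟨i, hi, hi2⟩ : ∃ i ∈ range (k + 1), i ∉ ((range (k + 1)).filter
        fun i => P.card < D w i) ∪ P.image c := by
      refine exists_mem_notMem_of_card_lt_card ?_
      have a := hD w (mem_insert_self _ _) P.card
      rw [big] at a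
      have b := card_image_le (s := P) (f := c)
      have d := card_union_le ((range (k + 1)).filter fun i => P.card < D w i) (P.image c)
      rw [card_range]
      omega
    rw [mem_union, not_or, mem_filter, not_and, mem_image] at hi2
    obtain ⟨hi3, hi4⟩ := hi2
    have hi5 := not_lt.1 (hi3 hi)
    have hne : ∀ w' ∈ P, c w' ≠ i := fun w' hw' h => hi4 ⟨w', hw', h⟩
    have hnw : ∀ w' ∈ P, w' ≠ w := fun w' hw' h => hw (h ▸ hw')
    refine ⟨Function.update c w i, Function.update E i (P.card + 1), fun w' hw' => ?_, ?_,
      fun w' hw' => ?_, fun j => ?_⟩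
    · rcases mem_insert.1 hw' with rfl | h
      · simpa using hi
      · rw [Function.update_of_ne (hnw _ h)]
        exact h1 _ h
    · rw [coe_insert, Set.injOn_insert (by simpa using hw)]
      constructor
      · intro a ha b hb hab
        rw [Function.update_of_ne (hnw _ ha), Function.update_of_ne (hnw _ hb)] at hab
        exact h2 ha hb hab
      · rintro ⟨a, ha, hab⟩
        rw [Function.update_of_ne (hnw _ ha), Function.update_self] at hab
        exact hne a ha hab
    · rcases mem_insert.1 hw' with rfl | h
      · simp only [Function.update_self]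
        omega
      · rw [Function.update_of_ne (hnw _ h), Function.update_of_ne (hne _ h)]
        exact h3 _ h
    · have h5 := h4 j
      rw [big] at h5 ⊢
      by_cases hj : j ≤ P.card
      · have : ((range (k + 1)).filter fun l => j < Function.update E i (P.card + 1) l) ⊆
            insert i ((range (k + 1)).filter fun l => j < E l) := by
          intro l hl
          rw [mem_filter] at hl
          by_cases hli : l = i
          · simp [hli]
          · rw [Function.update_of_ne hli] at hl
            exact mem_insert_of_mem (mem_filter.2 hl)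
        have := (card_le_card this).trans (card_insert_le _ _)
        omega
      · have : ((range (k + 1)).filter fun l => j < Function.update E i (P.card + 1) l) ⊆
            ((range (k + 1)).filter fun l => j < E l) := by
          intro l hl
          rw [mem_filter] at hl
          by_cases hli : l = i
          · subst hli
            rw [Function.update_self] at hl
            omega
          · rw [Function.update_of_ne hli] at hl
            exact mem_filter.2 hl
        have := card_le_card this
        omega

/-- the earlier neighbours -/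
noncomputable def par [Finite V] (G : SimpleGraph V) (f : V → ℕ) (v : V) : Finset V :=
  (Set.toFinite {w | G.Adj v w ∧ f w < f v}).toFinset

lemma mem_par [Finite V] {G : SimpleGraph V} {f : V → ℕ} {v w : V} :
    w ∈ par G f v ↔ G.Adj v w ∧ f w < f v := by simp [par]

lemma card_par [Finite V] (G : SimpleGraph V) (f : V → ℕ) (v : V) :
    (par G f v).card = {w | G.Adj v w ∧ f w < f v}.ncard := by
  rw [par, ← Set.ncard_eq_toFinset_card]

lemma labels [Finite V] (G : SimpleGraph V) (k : ℕ) (f : V → ℕ) (hf : Function.Injective f)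
    (hk : ∀ v, (par G f v).card ≤ k) :
    ∃ (c : V → V → ℕ) (D : V → ℕ → ℕ), ∀ v, (∀ w ∈ par G f v, c v w < k + 1) ∧
      Set.InjOn (c v) (par G f v) ∧ (∀ w ∈ par G f v, D w (c v w) < D v (c v w)) ∧
      ∀ j, big k (D v) j ≤ k - j := by
  classical
  have key : ∀ n, ∃ (c : V → V → ℕ) (D : V → ℕ → ℕ), ∀ v, f v < n →
      (∀ w ∈ par G f v, c v w < k + 1) ∧
      Set.InjOn (c v) (par G f v) ∧ (∀ w ∈ par G f v, D w (c v w) < D v (c v w)) ∧
      ∀ j, big k (D v) j ≤ k - j := by
    intro n
    induction n with
    | zero => exact ⟨fun _ _ => 0, fun _ _ => 0, fun v hv => absurd hv (Nat.not_lt_zero _)⟩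
    | succ n ih =>
      obtain ⟨c, D, h⟩ := ih
      by_cases hv : ∃ v, f v = n
      · obtain ⟨v₀, rfl⟩ := hv
        obtain ⟨c₀, E, h1, h2, h3, h4⟩ := pick k D (par G f v₀) (hk v₀) fun w hw =>
          (h w (mem_par.1 hw).2).2.2.2
        refine ⟨Function.update c v₀ c₀, Function.update D v₀ E, fun v hv => ?_⟩
        by_cases hvv : v = v₀
        · subst hvv
          have hnw : ∀ w ∈ par G f v, w ≠ v := fun w hw h => by
            have := (mem_par.1 hw).2
            rw [h] at this
            omega
          refine ⟨fun w hw => ?_, ?_, fun w hw => ?_, fun j => ?_⟩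
          · simpa using h1 w hw
          · simpa using h2
          · rw [Function.update_self, Function.update_self, Function.update_of_ne (hnw w hw)]
            exact h3 w hw
          · rw [Function.update_self]
            exact (h4 j).trans (Nat.sub_le_sub_right (hk v) j)
        · have hlt : f v < f v₀ := lt_of_le_of_ne (by omega) fun h => hvv (hf h)
          obtain ⟨a1, a2, a3, a4⟩ := h v hlt
          have hnw : ∀ w ∈ par G f v, w ≠ v₀ := fun w hw h => by
            have := (mem_par.1 hw).2
            rw [h] at this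
            omega
          rw [Function.update_of_ne hvv, Function.update_of_ne hvv]
          refine ⟨a1, a2, fun w hw => ?_, a4⟩
          rw [Function.update_of_ne (hnw w hw)]
          exact a3 w hw
      · exact ⟨c, D, fun v hv' => h v (lt_of_le_of_ne (by omega) fun h' => hv ⟨v, h'⟩)⟩
  have := Fintype.ofFinite V
  obtain ⟨c, D, h⟩ := key (univ.sup f + 1)
  exact ⟨c, D, fun v => h v (Nat.lt_succ_of_le (le_sup (mem_univ v)))⟩

/-- the colouring of the edges given by the colours at the later end points -/
def col (f : V → ℕ) (hf : Function.Injective f) (c : V → V → ℕ) : Sym2 V → ℕ :=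
  Sym2.lift ⟨fun v w => if f w < f v then c v w else c w v, fun v w => by
    rcases lt_trichotomy (f v) (f w) with h | h | h
    · simp [h, h.not_gt]
    · rw [hf h]
    · simp [h, h.not_gt]⟩

lemma col_lt {f : V → ℕ} {hf : Function.Injective f} {c : V → V → ℕ} {v w : V} (h : f w < f v) :
    col f hf c s(v, w) = c v w := by simp [col, h]

lemma col_gt {f : V → ℕ} {hf : Function.Injective f} {c : V → V → ℕ} {v w : V} (h : f v < f w) :
    col f hf c s(v, w) = c w v := by simp [col, h.not_gt]

section

variable [Finite V] {G : SimpleGraph V} {f : V → ℕ} (hf : Function.Injective f) {c : V → V → ℕ}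
  {D : V → ℕ → ℕ}

lemma path_len (hi : ∀ v, Set.InjOn (c v) (par G f v))
    (hD : ∀ v, ∀ w ∈ par G f v, D w (c v w) < D v (c v w)) (i : ℕ) {u v : V} (p : G.Walk u v)
    (hp : p.IsPath) (hc : ∀ e ∈ p.edges, col f hf c e = i) :
    p.length ≤ D u i + D v i ∧ (f u < f (p.getVert 1) → p.length + D u i ≤ D v i) := by
  induction p with
  | nil => simp
  | @cons u w v h q ih =>
    rw [Walk.cons_isPath_iff] at hp
    rw [Walk.edges_cons] at hc
    obtain ⟨ih1, ih2⟩ := ih hp.1 fun e he => hc e (List.mem_cons_of_mem _ he)
    have hcu := hc _ List.mem_cons_self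
    rw [Walk.length_cons, Walk.getVert_cons_succ, Walk.getVert_zero]
    rcases lt_trichotomy (f u) (f w) with hlt | heq | hgt
    · rw [col_gt hlt] at hcu
      have hpar : u ∈ par G f w := mem_par.2 ⟨h.symm, hlt⟩
      have h1 := hD w u hpar
      rw [hcu] at h1
      have h2 : q.length + D w i ≤ D v i := by
        cases q with
        | nil => simp
        | @cons _ x _ h' q' =>
          apply ih2
          rw [Walk.getVert_cons_succ, Walk.getVert_zero]
          have hcw := hc s(w, x) (by simp)
          rcases lt_trichotomy (f w) (f x) with h3 | h3 | h3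
          · exact h3
          · exact absurd (hf h3) h'.ne
          · rw [col_lt h3] at hcw
            have := hi w (mem_coe.2 hpar) (mem_coe.2 (mem_par.2 ⟨h', h3⟩)) (hcu.trans hcw.symm)
            refine absurd ?_ hp.2
            rw [this]
            simp
      constructor
      · omega
      · intro _
        omega
    · exact absurd (hf heq) h.ne
    · rw [col_lt hgt] at hcu
      have h1 := hD u w (mem_par.2 ⟨h, hgt⟩)
      rw [hcu] at h1
      constructor
      · omega
      · intro h
        omega

end

theorem upper [Finite V] (G : SimpleGraph V) (k : ℕ) (hG : Degenerate G k)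
    (hg : ((2 * k + 2 : ℕ) : ℕ∞) ≤ G.egirth) :
    ∃ c : Sym2 V → ℕ, (∀ e ∈ G.edgeSet, c e < k + 1) ∧ StronglyWoody G c := by
  obtain ⟨f, hf, hk⟩ := hG
  obtain ⟨c, D, h⟩ := labels G k f hf fun v => (card_par G f v).trans_le (hk v)
  have hlt : ∀ e ∈ G.edgeSet, col f hf c e < k + 1 := by
    intro e he
    induction e using Sym2.ind with
    | _ u v =>
      rw [mem_edgeSet] at he
      rcases lt_trichotomy (f u) (f v) with h1 | h1 | h1
      · rw [col_gt h1]
        exact (h v).1 u (mem_par.2 ⟨he.symm, h1⟩)
      · exact absurd (hf h1) he.ne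
      · rw [col_lt h1]
        exact (h u).1 v (mem_par.2 ⟨he, h1⟩)
  refine ⟨col f hf c, hlt, fun u v p hp hl ha ⟨i, hi⟩ => ?_⟩
  have h1 := (path_len hf (fun v => (h v).2.1) (fun v => (h v).2.2.1) i p hp hi).1
  have hik : i < k + 1 := by
    cases p with
    | nil => simp at hl
    | cons h' q =>
      rw [← hi _ (by rw [Walk.edges_cons]; exact List.mem_cons_self)]
      exact hlt _ h'
  have h2 : ∀ x, D x i ≤ k := by
    intro x
    by_contra hx
    have := (h x).2.2.2 k
    rw [Nat.sub_self, Nat.le_zero, big, card_eq_zero, filter_eq_empty_iff] at this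
    exact this (mem_range.2 hik) (not_le.1 hx)
  have h3 : (Walk.cons ha.symm p).IsCycle := by
    rw [Walk.cons_isCycle_iff]
    refine ⟨hp, fun hmem => ?_⟩
    rw [Sym2.eq_swap] at hmem
    have := hp.length_eq_one_of_mem_edges hmem
    omega
  have h4 := le_egirth.1 hg _ _ h3
  rw [Walk.length_cons] at h4
  have h5 : 2 * k + 2 ≤ p.length + 1 := by exact_mod_cast h4
  have h6 := h2 u
  have h7 := h2 v
  omega

/-- a graph with at most one earlier neighbour at each vertex is a forest -/
lemma acyclic_of_par [Finite V] {H : SimpleGraph V} {f : V → ℕ} (hf : Function.Injective f)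
    (h : ∀ v w w', H.Adj v w → f w < f v → H.Adj v w' → f w' < f v → w = w') : H.IsAcyclic := by
  classical
  intro u p hp
  obtain ⟨m, hm, hmax⟩ := p.support.toFinset.exists_max_image f ⟨u, by simp⟩
  rw [List.mem_toFinset] at hm
  have hq := hp.rotate hm
  have hmax' : ∀ x ∈ (p.rotate m hm).support, f x ≤ f m := by
    intro x hx
    refine hmax x (List.mem_toFinset.2 ?_)
    simpa using hx
  generalize p.rotate m hm = q at hq hmax'
  cases q with
  | nil => exact hq.ne_nil rfl
  | @cons _ w _ ha q =>
    have hl := hq.three_le_length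
    rw [Walk.cons_isCycle_iff] at hq
    rw [Walk.length_cons] at hl
    have hqn : ¬ q.Nil := by
      intro hn
      have := Walk.length_eq_zero_iff.2 hn
      omega
    have hadj := q.adj_penultimate hqn
    have hw : f w < f m := lt_of_le_of_ne (hmax' w (by simp)) fun e => ha.ne (hf e).symm
    have hw' : f q.penultimate < f m := lt_of_le_of_ne
      (hmax' _ (by rw [Walk.support_cons]; exact List.mem_cons_of_mem _ (q.getVert_mem_support _)))
      fun e => hadj.ne (hf e)
    have e := h m w q.penultimate ha hw hadj.symm hw'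
    have e2 : q.getVert 0 = q.getVert (q.length - 1) := by
      rw [Walk.getVert_zero]
      exact e
    have := hq.1.getVert_injOn (by simp) (by simp) e2
    omega

theorem woody_of_degenerate [Finite V] (G : SimpleGraph V) (k : ℕ) (hG : Degenerate G k) :
    ∃ c : Sym2 V → ℕ, (∀ e ∈ G.edgeSet, c e < k) ∧ Woody G c := by
  classical
  obtain ⟨f, hf, hk⟩ := hG
  have : ∀ v, ∃ c : V → ℕ, (∀ w ∈ par G f v, c w < k) ∧ Set.InjOn c (par G f v) := by
    intro v
    have h1 := (card_par G f v).trans_le (hk v)
    refine ⟨fun w => if h : w ∈ par G f v then ((par G f v).equivFin ⟨w, h⟩).1 else 0,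
      fun w hw => ?_, fun w hw w' hw' e => ?_⟩
    · simp only [dif_pos hw]
      exact ((par G f v).equivFin ⟨w, hw⟩).2.trans_le h1
    · rw [mem_coe] at hw hw'
      simp only [dif_pos hw, dif_pos hw'] at e
      simpa using (par G f v).equivFin.injective (Fin.ext e)
  choose c hc1 hc2 using this
  have hlt : ∀ e ∈ G.edgeSet, col f hf c e < k := by
    intro e he
    induction e using Sym2.ind with
    | _ u v =>
      rw [mem_edgeSet] at he
      rcases lt_trichotomy (f u) (f v) with h1 | h1 | h1
      · rw [col_gt h1]
        exact hc1 v u (mem_par.2 ⟨he.symm, h1⟩)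
      · exact absurd (hf h1) he.ne
      · rw [col_lt h1]
        exact hc1 u v (mem_par.2 ⟨he, h1⟩)
  refine ⟨col f hf c, hlt, fun u p hp ⟨i, hi⟩ => ?_⟩
  have hac : (G ⊓ fromEdgeSet {e | col f hf c e = i}).IsAcyclic := by
    refine acyclic_of_par hf fun v w w' h1 h2 h3 h4 => ?_
    rw [inf_adj, fromEdgeSet_adj] at h1 h3
    have e1 := h1.2.1
    have e2 := h3.2.1
    rw [Set.mem_ofPred_eq, col_lt h2] at e1
    rw [Set.mem_ofPred_eq, col_lt h4] at e2
    exact hc2 v (mem_coe.2 (mem_par.2 ⟨h1.1, h2⟩)) (mem_coe.2 (mem_par.2 ⟨h3.1, h4⟩))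
      (e1.trans e2.symm)
  refine hac _ (hp.transfer (H := G ⊓ fromEdgeSet {e | col f hf c e = i}) fun e he => ?_)
  have h1 := p.edges_subset_edgeSet he
  have h2 := hi e he
  induction e using Sym2.ind with
  | _ x y =>
    rw [mem_edgeSet] at h1 ⊢
    rw [inf_adj, fromEdgeSet_adj]
    exact ⟨h1, h2, h1.ne⟩

end Pool.Agent.KS6_37.SA
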