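import Mathlib
import Pool.Agent.KS6_37.SA.Upper
import Pool.Agent.KS6_37.SA.Gir
import Pool.Agent.KS6_37.SA.Count
import Pool.Graph.R_pool_sql_team_ae5b0c61.H84.GirCol

set_option autoImplicit false

namespace Pool.Agent.KS6_37.SA

open SimpleGraph Pool.Agent.H84

section general

variable {V : Type}

lemma degenerate_of_lev [Finite V] (G : SimpleGraph V) (Dn : V → V → Prop) (lev : V → ℕ) (k : ℕ)
    (h1 : ∀ a b, G.Adj a b → Dn a b ∨ Dn b a) (h2 : ∀ a b, Dn a b → lev b < lev a)
    (h3 : ∀ a, {b | Dn a b}.ncard ≤ k) : Degenerate G k := by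
  obtain ⟨N, ⟨idx⟩⟩ := Finite.exists_equiv_fin V
  have hlt : ∀ a b, lev a < lev b → lev a * N + (idx a : ℕ) < lev b * N + (idx b : ℕ) := by
    intro a b h
    have e1 := (idx a).2
    have e2 : (lev a + 1) * N ≤ lev b * N := Nat.mul_le_mul_right N h
    rw [add_mul, one_mul] at e2
    omega
  refine ⟨fun v => lev v * N + idx v, fun a b h => ?_, fun v => ?_⟩
  · simp only at h
    rcases lt_trichotomy (lev a) (lev b) with h' | h' | h'
    · have := hlt a b h'
      omega
    · rw [h'] at h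
      exact idx.injective (Fin.ext (by omega))
    · have := hlt b a h'
      omega
  · refine (Set.ncard_le_ncard (t := {b | Dn v b}) fun w hw => ?_).trans (h3 v)
    rcases h1 _ _ hw.1 with h | h
    · exact h
    · have e1 := hlt _ _ (h2 _ _ h)
      have e2 := hw.2
      simp only at e2
      omega

lemma woody_of_stronglyWoody {G : SimpleGraph V} {c : Sym2 V → ℕ} (h : StronglyWoody G c) :
    Woody G c := by
  rintro u p hp ⟨i, hi⟩
  cases p with
  | nil => exact hp.ne_nil rfl
  | cons ha q =>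
    have hl := hp.three_le_length
    rw [Walk.length_cons] at hl
    rw [Walk.cons_isCycle_iff] at hp
    refine h _ _ q hp.1 (by omega) ha.symm ⟨i, fun e he => hi e ?_⟩
    rw [Walk.edges_cons]
    exact List.mem_cons_of_mem _ he

lemma acyclic_cls {H : SimpleGraph V} {c : Sym2 V → ℕ} (h : Woody H c) (i : ℕ) :
    (cls H c i).IsAcyclic := by
  intro u p hp
  refine h u (p.mapLe (cls_le H c i)) (hp.mapLe _) ⟨i, fun e he => ?_⟩
  rw [Walk.edges_mapLe_eq_edges] at he
  exact (mem_cls.1 (p.edges_subset_edgeSet he)).2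

lemma woody_comap {A : Type} {G : SimpleGraph V} {c : Sym2 V → ℕ} (φ : A ↪ V) (h : Woody G c) :
    Woody (G.comap φ) (fun e => c (e.map φ)) := by
  rintro u p hp ⟨i, hi⟩
  refine h _ (p.map (Embedding.comap φ G).toHom) (hp.map φ.injective) ⟨i, fun e he => ?_⟩
  rw [Walk.edges_map, List.mem_map] at he
  obtain ⟨e', he', rfl⟩ := he
  exact hi e' he'

lemma lift_path {A : Type} {G : SimpleGraph V} (φ : A ↪ V) {H : SimpleGraph A}
    (hH : H ≤ G.comap φ) {a b : A} (P : H.Walk a b) (hP : P.IsPath) :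
    ∃ Q : G.Walk (φ a) (φ b), Q.IsPath ∧ Q.length = P.length ∧ Q.support = P.support.map φ ∧
      Q.edges = P.edges.map (Sym2.map φ) := by
  let ψ : H →g G := ⟨φ, fun h => hH h⟩
  exact ⟨P.map ψ, hP.map φ.injective, P.length_map ψ, P.support_map ψ, P.edges_map ψ⟩

end general

variable {k n : ℕ} {X : Type}

/-- the vertices: pairs of a point and a level, and a vertex for each pair in `Fin n` -/
abbrev Vt (X : Type) (T n : ℕ) := (X × Fin (T + 1)) ⊕ (Fin n × Fin n)

/-- the second vertex is a parent of the first -/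
def Dn (s : Fin k → X → X) (x₀ : X) (g T : ℕ) (E : Set (Fin n × Fin n)) :
    Vt X T n → Vt X T n → Prop
  | .inl a, .inl b => ∃ i, (a.2 : ℕ) = b.2 + 1 ∧ s i a.1 = b.1
  | .inr e, .inl b => e ∈ E ∧ b.1 = x₀ ∧ ((b.2 : ℕ) = 2 * g * e.1 ∨ (b.2 : ℕ) = 2 * g * e.2)
  | _, .inr _ => False

/-- the level -/
def lev (T : ℕ) : Vt X T n → ℕ
  | .inl a => a.2
  | .inr _ => T + 1

section

variable (s : Fin k → X → X) (x₀ : X) (g T : ℕ) (E : Set (Fin n × Fin n))

/-- the graph -/
def Gr : SimpleGraph (Vt X T n) := SimpleGraph.fromRel (Dn s x₀ g T E)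

variable {s x₀ g T E}

lemma lev_lt {a b : Vt X T n} (h : Dn s x₀ g T E a b) : lev T b < lev T a := by
  rcases a with a | a <;> rcases b with b | b
  · obtain ⟨i, h1, h2⟩ := h
    simp only [lev]
    omega
  · exact h.elim
  · simp only [lev]
    omega
  · exact h.elim

lemma adj_iff {a b : Vt X T n} : (Gr s x₀ g T E).Adj a b ↔
    Dn s x₀ g T E a b ∨ Dn s x₀ g T E b a := by
  rw [Gr, SimpleGraph.fromRel_adj]
  refine ⟨fun h => h.2, fun h => ⟨fun e => ?_, h⟩⟩
  subst e
  rcases h with h | h <;> exact absurd (lev_lt h) (lt_irrefl _)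

lemma deg [Finite X] (hk : 2 ≤ k) : Degenerate (Gr s x₀ g T E) k := by
  refine degenerate_of_lev _ (Dn s x₀ g T E) (lev T) k (fun a b h => adj_iff.1 h)
    (fun a b h => lev_lt h) fun a => ?_
  rcases a with ⟨x, t⟩ | e
  · let F : Fin k → Vt X T n := fun i => .inl (s i x, ⟨t - 1, by omega⟩)
    have h1 : {b | Dn s x₀ g T E (.inl (x, t)) b} ⊆ F '' Set.univ := by
      rintro (⟨y, u⟩ | b) hb
      · obtain ⟨i, h1, h2⟩ := hb
        simp only at h1 h2
        refine ⟨i, trivial, ?_⟩
        simp only [F]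
        rw [h2]
        congr 2
        exact Fin.ext (by simp only; omega)
      · exact hb.elim
    refine (Set.ncard_le_ncard h1 (Set.toFinite _)).trans
      ((Set.ncard_image_le (Set.toFinite _)).trans ?_)
    rw [Set.ncard_univ, Nat.card_eq_fintype_card, Fintype.card_fin]
  · have h1 : {b | Dn s x₀ g T E (.inr e) b}.ncard ≤
        ({2 * g * (e.1 : ℕ), 2 * g * (e.2 : ℕ)} : Set ℕ).ncard := by
      refine Set.ncard_le_ncard_of_injOn (lev T) ?_ ?_ (Set.toFinite _)
      · rintro (⟨y, u⟩ | b) hb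
        · exact hb.2.2
        · exact hb.elim
      · rintro (⟨y, u⟩ | b) hb (⟨z, v⟩ | b') hb' h
        · obtain ⟨_, h1, _⟩ := hb
          obtain ⟨_, h2, _⟩ := hb'
          simp only at h1 h2
          subst h1 h2
          simp only [lev] at h
          rw [Fin.ext h]
        · exact hb'.elim
        · exact hb.elim
        · exact hb.elim
    have h2 : ({2 * g * (e.1 : ℕ), 2 * g * (e.2 : ℕ)} : Set ℕ).ncard ≤ 2 :=
      (Set.ncard_insert_le _ _).trans (by rw [Set.ncard_singleton])
    exact h1.trans (h2.trans hk)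

lemma bip : (Gr s x₀ g T E).Colorable 2 := by
  refine ⟨Coloring.mk (fun v => match v with
    | .inl a => ⟨(a.2 : ℕ) % 2, Nat.mod_lt _ (by norm_num)⟩
    | .inr _ => 1) ?_⟩
  have key : ∀ a b, Dn s x₀ g T E a b → (match a with
      | .inl a => (⟨(a.2 : ℕ) % 2, Nat.mod_lt _ (by norm_num)⟩ : Fin 2)
      | .inr _ => 1) ≠ (match b with
      | .inl a => ⟨(a.2 : ℕ) % 2, Nat.mod_lt _ (by norm_num)⟩
      | .inr _ => 1) := by
    rintro (a | a) (b | b) h e
    · obtain ⟨i, h1, h2⟩ := h
      have := Fin.ext_iff.1 e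
      simp only at this
      omega
    · exact h.elim
    · obtain ⟨h0, h1, h2⟩ := h
      have := Fin.ext_iff.1 e
      simp only [Fin.val_one] at this
      rcases h2 with h2 | h2 <;>
      · rw [mul_assoc] at h2
        omega
    · exact h.elim
  intro a b h
  rcases adj_iff.1 h with h | h
  · exact key _ _ h
  · exact (key _ _ h).symm

/-- no short cycle through a vertex of the second kind -/
lemma girth_one (hE : GirCol.Gir E g) (e : Fin n × Fin n)
    (w : (Gr s x₀ g T E).Walk (.inr e) (.inr e)) (hw : w.IsCycle) : g < w.length := by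
  by_contra hlen
  rw [not_lt] at hlen
  have hl3 := hw.three_le_length
  have hadj : ∀ i < w.length, (Gr s x₀ g T E).Adj (w.getVert i) (w.getVert (i + 1)) :=
    fun i hi => w.adj_getVert_succ hi
  have hinj := hw.getVert_injOn
  have hne : ∀ i, 1 ≤ i → i < w.length → w.getVert i ≠ .inr e := by
    intro i h1 h2 h3
    replace h3 : w.getVert i = w.getVert w.length := by rw [h3, w.getVert_length]
    have := hinj (show i ∈ {i | 1 ≤ i ∧ i ≤ w.length} from ⟨h1, h2.le⟩)
      (show w.length ∈ {i | 1 ≤ i ∧ i ≤ w.length} from ⟨by omega, le_rfl⟩) h3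
    omega
  -- neighbours of a vertex of the second kind
  have hnb : ∀ (e' : Fin n × Fin n) (v : Vt X T n), (Gr s x₀ g T E).Adj (.inr e') v →
      e' ∈ E ∧ ∃ (j : Fin n) (t : Fin (T + 1)), (j = e'.1 ∨ j = e'.2) ∧ v = .inl (x₀, t) ∧
        (t : ℕ) = 2 * g * j := by
    rintro e' (⟨x, t⟩ | v) h
    · rcases adj_iff.1 h with h | h
      · obtain ⟨h1, h2, h3⟩ := h
        simp only at h2 h3
        subst h2
        rcases h3 with h3 | h3
        · exact ⟨h1, e'.1, t, Or.inl rfl, rfl, h3⟩
        · exact ⟨h1, e'.2, t, Or.inr rfl, rfl, h3⟩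
      · exact h.elim
    · rcases adj_iff.1 h with h | h <;> exact h.elim
  have hclose : ∀ (i j : Fin n) (b : ℕ), b < g → 2 * g * (i : ℕ) ≤ 2 * g * j + b →
      2 * g * (j : ℕ) ≤ 2 * g * i + b → i = j := by
    intro i j b hb h1 h2
    by_contra hij
    have hg : 0 < g := by omega
    rcases lt_or_gt_of_ne (fun h => hij (Fin.ext h) : (i : ℕ) ≠ j) with h | h
    · have : 2 * g * ((i : ℕ) + 1) ≤ 2 * g * j := Nat.mul_le_mul_left _ h
      rw [mul_add, mul_one] at this
      omega
    · have : 2 * g * ((j : ℕ) + 1) ≤ 2 * g * i := Nat.mul_le_mul_left _ h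
      rw [mul_add, mul_one] at this
      omega
  obtain ⟨heE, p, t1, hp, hc1, ht1⟩ := hnb e (w.getVert 1) (by
    have := hadj 0 (by omega)
    rwa [w.getVert_zero, zero_add] at this)
  obtain ⟨-, q, t2, hq, hc2, ht2⟩ := hnb e (w.getVert (w.length - 1)) (by
    have := hadj (w.length - 1) (by omega)
    rw [show w.length - 1 + 1 = w.length by omega, w.getVert_length] at this
    exact this.symm)
  have hpq : p ≠ q := by
    intro h
    rw [h, ← ht2] at ht1
    have h1 : w.getVert 1 = w.getVert (w.length - 1) := by rw [hc1, hc2, Fin.ext ht1]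
    have := hinj (show 1 ∈ {i | 1 ≤ i ∧ i ≤ w.length} from ⟨le_rfl, by omega⟩)
      (show w.length - 1 ∈ {i | 1 ≤ i ∧ i ≤ w.length} from ⟨by omega, by omega⟩) h1
    omega
  have key : ∀ i, i + 1 < w.length →
      (∀ x (t : Fin (T + 1)), w.getVert (i + 1) = .inl (x, t) → ∃ (j : Fin n) (a b : ℕ),
        GirCol.Wk (E \ {e}) a p j ∧ (t : ℕ) ≤ 2 * g * j + b ∧ 2 * g * (j : ℕ) ≤ t + b ∧
          a + b ≤ i) ∧
      (∀ e', w.getVert (i + 1) = .inr e' → ∃ (j : Fin n) (a : ℕ),
        GirCol.Wk (E \ {e}) a p j ∧ (j = e'.1 ∨ j = e'.2) ∧ a + 1 ≤ i) := by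
    intro i
    induction i with
    | zero =>
      intro _
      rw [zero_add, hc1]
      refine ⟨fun x t h => ?_, fun e' h => ?_⟩
      · have h' := Sum.inl.inj h
        refine ⟨p, 0, 0, .refl _ _, ?_, ?_, le_rfl⟩ <;>
        · have h'' : t1 = t := (Prod.ext_iff.1 h').2
          rw [← h'', ht1]
          simp
      · exact absurd h (by simp)
    | succ i ih =>
      intro hi
      obtain ⟨ih1, ih2⟩ := ih (by omega)
      have ha := hadj (i + 1) (by omega)
      have hn1 := hne (i + 1) (by omega) (by omega)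
      have hn2 := hne (i + 1 + 1) (by omega) hi
      refine ⟨fun y u hy => ?_, fun e' he' => ?_⟩
      · rw [hy] at ha
        rcases hv : w.getVert (i + 1) with ⟨x, t⟩ | e''
        · obtain ⟨j, a, b, h1, h2, h3, h4⟩ := ih1 x t hv
          rw [hv] at ha
          refine ⟨j, a, b + 1, h1, ?_, ?_, by omega⟩ <;>
          · rcases adj_iff.1 ha with h | h <;>
            · obtain ⟨_, h5, _⟩ := h
              simp only at h5
              omega
        · obtain ⟨j, a, h1, h2, h3⟩ := ih2 e'' hv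
          rw [hv] at ha hn1
          obtain ⟨m1, j', t', m2, m3, m4⟩ := hnb e'' _ ha
          have hee : e'' ∈ E \ {e} := ⟨m1, fun h => hn1 (by rw [Set.mem_singleton_iff.1 h])⟩
          have m5 := Sum.inl.inj m3
          have m6 := (Prod.ext_iff.1 m5).2
          simp only at m6
          subst m6
          refine ⟨j', a + 1, 0, ?_, by omega, by omega, by omega⟩
          rcases h2 with h2 | h2 <;> rcases m2 with m2 | m2
          · rw [m2, ← h2]; exact h1.mono (by omega)
          · rw [m2]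
            rw [h2] at h1
            exact h1.trans (.step (Or.inl hee) (.refl 0 _))
          · rw [m2]
            rw [h2] at h1
            exact h1.trans (.step (Or.inr hee) (.refl 0 _))
          · rw [m2, ← h2]; exact h1.mono (by omega)
      · rw [he'] at ha hn2
        obtain ⟨m1, j', t', m2, m3, m4⟩ := hnb e' _ ha.symm
        obtain ⟨j, a, b, h1, h2, h3, h4⟩ := ih1 _ _ m3
        rw [m4] at h2 h3
        have hj : j' = j := hclose j' j b (by omega) h2 h3
        subst hj
        exact ⟨j', a, h1, m2, by omega⟩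
  obtain ⟨j, a, b, h1, h2, h3, h4⟩ := (key (w.length - 2) (by omega)).1 x₀ t2 (by
    rw [show w.length - 2 + 1 = w.length - 1 by omega]
    exact hc2)
  rw [ht2] at h2 h3
  have hj : q = j := hclose q j b (by omega) h2 h3
  subst hj
  have h5 := hE e heE
  rcases hp with hp | hp <;> rcases hq with hq | hq
  · exact hpq (hp.trans hq.symm)
  · rw [hp, hq] at h1
    exact h5 (h1.mono (by omega))
  · rw [hp, hq] at h1
    exact h5 (h1.symm.mono (by omega))
  · exact hpq (hp.trans hq.symm)

/-- no short cycle among the vertices of the first kind -/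
lemma girth_two (hs : ∀ b, Function.Injective (s b)) (hG : Gir s g) {v : Vt X T n}
    (w : (Gr s x₀ g T E).Walk v v) (hw : w.IsCycle)
    (hin : ∀ i, ∃ a, w.getVert i = .inl a) : g < w.length := by
  by_contra hlen
  rw [not_lt] at hlen
  have hl3 := hw.three_le_length
  choose a ha using hin
  have hadj : ∀ i, ∃ l : Fin k × Bool, i < w.length → Stp s (a i).1 l (a (i + 1)).1 ∧
      (l.2 = true → ((a i).2 : ℕ) = (a (i + 1)).2 + 1) ∧
      (l.2 = false → ((a (i + 1)).2 : ℕ) = (a i).2 + 1) := by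
    intro i
    by_cases hi : i < w.length
    · have h := w.adj_getVert_succ hi
      rw [ha, ha] at h
      rcases adj_iff.1 h with h | h
      · obtain ⟨b, h1, h2⟩ := h
        exact ⟨(b, true), fun _ => ⟨h2, fun _ => h1, fun h => by simp at h⟩⟩
      · obtain ⟨b, h1, h2⟩ := h
        exact ⟨(b, false), fun _ => ⟨h2, fun h => by simp at h, fun _ => h1⟩⟩
    · have h := w.adj_getVert_succ (i := 0) (by omega)
      rw [ha, ha] at h
      rcases adj_iff.1 h with h | h
      · obtain ⟨b, _, _⟩ := h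
        exact ⟨(b, true), fun h => absurd h hi⟩
      · obtain ⟨b, _, _⟩ := h
        exact ⟨(b, true), fun h => absurd h hi⟩
  choose l hl using hadj
  have hinj := hw.getVert_injOn'
  have hne : ∀ i, i + 2 ≤ w.length → a i ≠ a (i + 2) := by
    intro i hi h
    have h1 : w.getVert i = w.getVert (i + 2) := by rw [ha, ha, h]
    rcases Nat.lt_or_ge (i + 2) w.length with h2 | h2
    · have := hinj (show i ∈ {i | i ≤ w.length - 1} by simp only [Set.mem_ofPred_eq]; omega)
        (show i + 2 ∈ {i | i ≤ w.length - 1} by simp only [Set.mem_ofPred_eq]; omega) h1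
      omega
    · have h3 : i + 2 = w.length := by omega
      rw [h3, w.getVert_length] at h1
      have h4 : w.getVert i = w.getVert 0 := by rw [h1, w.getVert_zero]
      have := hinj (show i ∈ {i | i ≤ w.length - 1} by simp only [Set.mem_ofPred_eq]; omega)
        (show 0 ∈ {i | i ≤ w.length - 1} by simp) h4
      omega
  refine hG w.length (fun i => (a i).1) l (by omega) hlen (fun i hi => (hl i hi).1)
    (fun i hi hb => ?_) ?_
  · by_contra hb2
    obtain ⟨s1, p1, q1⟩ := hl i (by omega)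
    obtain ⟨s2, p2, q2⟩ := hl (i + 1) hi
    refine hne i (by omega) ?_
    rcases h1 : (l i).2 with _ | _ <;> rcases h2 : (l (i + 1)).2 with _ | _
    · rw [h1, h2] at hb2; exact absurd rfl hb2
    · have e1 := q1 h1
      have e2 := p2 h2
      rw [Stp, h1] at s1
      rw [Stp, h2] at s2
      simp only [Bool.false_eq_true, if_false, if_true] at s1 s2
      rw [← hb, s1] at s2
      exact Prod.ext s2 (Fin.ext (by rw [show i + 2 = i + 1 + 1 from rfl]; omega))
    · have e1 := p1 h1
      have e2 := q2 h2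
      rw [Stp, h1] at s1
      rw [Stp, h2] at s2
      simp only [Bool.false_eq_true, if_false, if_true] at s1 s2
      rw [← hb, ← s1] at s2
      exact Prod.ext (hs _ s2).symm (Fin.ext (by rw [show i + 2 = i + 1 + 1 from rfl]; omega))
    · rw [h1, h2] at hb2; exact absurd rfl hb2
  · have h1 : w.getVert w.length = w.getVert 0 := by rw [w.getVert_length, w.getVert_zero]
    rw [ha, ha] at h1
    exact congrArg Prod.fst (Sum.inl.inj h1)

lemma girth (hs : ∀ b, Function.Injective (s b)) (hG : Gir s g) (hE : GirCol.Gir E g) :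
    (g : ℕ∞) ≤ (Gr s x₀ g T E).egirth := by
  classical
  rw [le_egirth]
  intro v w hw
  by_cases h : ∃ e, Sum.inr e ∈ w.support
  · obtain ⟨e, he⟩ := h
    have := girth_one hE e (w.rotate _ he) (hw.rotate he)
    rw [Walk.length_rotate] at this
    exact_mod_cast this.le
  · push Not at h
    have := girth_two hs hG w hw fun i => by
      rcases hv : w.getVert i with a | e
      · exact ⟨a, rfl⟩
      · exact absurd (hv ▸ w.getVert_mem_support i) (h e)
    exact_mod_cast this.le

/-- the part of the graph formed by the vertices of the first kind -/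
abbrev Lo (s : Fin k → X → X) (x₀ : X) (g T : ℕ) (E : Set (Fin n × Fin n)) :
    SimpleGraph (X × Fin (T + 1)) := (Gr s x₀ g T E).comap Function.Embedding.inl

lemma edges_lo [Finite X] (hg : 2 ≤ g) (hG : Gir s g) :
    k * Nat.card X * T ≤ (Lo s x₀ g T E).edgeSet.ncard := by
  have h0 : ∀ i j x, s i x = s j x → i = j := by
    intro i j x h
    by_contra hij
    refine hG 2 (fun m => if m = 1 then s i x else x) (fun m => if m = 0 then (i, true) else
      (j, false)) (by norm_num) hg (fun m hm => ?_) (fun m hm => ?_) (by simp)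
    · rcases (by omega : m = 0 ∨ m = 1) with rfl | rfl
      · simp [Stp]
      · simp [Stp, h]
    · have : m = 0 := by omega
      subst this
      simp [hij]
  let F : Fin k × X × Fin T → Sym2 (X × Fin (T + 1)) :=
    fun z => s((z.2.1, z.2.2.succ), (s z.1 z.2.1, z.2.2.castSucc))
  have hF : Function.Injective F := by
    rintro ⟨i, x, t⟩ ⟨j, y, u⟩ h
    simp only [F, Sym2.eq_iff, Prod.mk.injEq, Fin.ext_iff, Fin.val_succ, Fin.val_castSucc] at h
    rcases h with ⟨⟨h1, h2⟩, h3, h4⟩ | ⟨⟨h1, h2⟩, h3, h4⟩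
    · subst h1
      rw [h0 _ _ _ h3, Fin.ext h4]
    · omega
  have h1 : Set.range F ⊆ (Lo s x₀ g T E).edgeSet := by
    rintro _ ⟨⟨i, x, t⟩, rfl⟩
    simp only [F, mem_edgeSet, comap_adj]
    exact adj_iff.2 (Or.inl ⟨i, by simp, rfl⟩)
  have h2 := Set.ncard_le_ncard h1 (Set.toFinite _)
  rw [← Set.image_univ, Set.ncard_image_of_injective _ hF, Set.ncard_univ, Nat.card_prod,
    Nat.card_prod, Nat.card_eq_fintype_card, Fintype.card_fin, Nat.card_eq_fintype_card (α := Fin T),
    Fintype.card_fin] at h2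
  rw [mul_assoc]
  exact h2

lemma card_lo [Finite X] : Nat.card (X × Fin (T + 1)) = Nat.card X * (T + 1) := by
  rw [Nat.card_prod, Nat.card_eq_fintype_card (α := Fin (T + 1)), Fintype.card_fin]

lemma arb_ge [Finite X] [Nonempty X] (hg : 2 ≤ g) (hG : Gir s g) (hT : k ≤ T) (r : ℕ)
    (c : Sym2 (Vt X T n) → ℕ) (hr : ∀ e ∈ (Gr s x₀ g T E).edgeSet, c e < r)
    (hc : Woody (Gr s x₀ g T E) c) : k ≤ r := by
  have h1 := woody_comap Function.Embedding.inl hc
  have h2 := count (Lo s x₀ g T E) (fun e => c (e.map Function.Embedding.inl)) r (fun e he => by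
    induction e using Sym2.ind with
    | _ a b => exact hr _ he) (acyclic_cls h1)
  have h3 := edges_lo (x₀ := x₀) (T := T) (E := E) hg hG
  rw [card_lo] at h2
  by_contra hlt
  have hX : 0 < Nat.card X := Nat.card_pos
  have h4 : r * (Nat.card X * (T + 1)) < k * Nat.card X * T := by
    have a1 : r + 1 ≤ k := by omega
    have a2 : (r + 1) * T ≤ k * T := Nat.mul_le_mul_right _ a1
    rw [add_mul, one_mul] at a2
    calc r * (Nat.card X * (T + 1)) = Nat.card X * (r * T + r) := by ring
      _ < Nat.card X * (k * T) := Nat.mul_lt_mul_of_pos_left (by omega) hX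
      _ = k * Nat.card X * T := by ring
  omega

lemma zeta_ge [Finite X] (hg : 2 ≤ g) (hG : Gir s g) (hE0 : ∀ e ∈ E, e.1 ≠ e.2)
    (hT : 2 * g * n ≤ T)
    (hcol : ∀ c : Fin n → Fin ((k * Nat.card X) ^ k + 1), ∃ e ∈ E, c e.1 = c e.2)
    (c : Sym2 (Vt X T n) → ℕ) (hr : ∀ e ∈ (Gr s x₀ g T E).edgeSet, c e < k) :
    ¬ StronglyWoody (Gr s x₀ g T E) c := by
  classical
  intro hc
  have h1 := woody_comap Function.Embedding.inl (woody_of_stronglyWoody hc)
  set c' : Sym2 (X × Fin (T + 1)) → ℕ := fun e => c (e.map Function.Embedding.inl) with hc'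
  have h2 := count (Lo s x₀ g T E) c' k (fun e he => by
    induction e using Sym2.ind with
    | _ a b => exact hr _ he) (acyclic_cls h1)
  have h3 := edges_lo (x₀ := x₀) (T := T) (E := E) hg hG
  rw [card_lo] at h2
  set N := k * Nat.card X with hN
  have h4 : ∀ i ∈ Finset.range k, Nat.card (cls (Lo s x₀ g T E) c' i).ConnectedComponent ≤ N := by
    intro i hi
    refine (Finset.single_le_sum (f := fun i =>
      Nat.card (cls (Lo s x₀ g T E) c' i).ConnectedComponent) (fun _ _ => Nat.zero_le _) hi).trans ?_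
    have : k * (Nat.card X * (T + 1)) = N * T + N := by rw [hN]; ring
    omega
  have h5 : ∀ i : Fin k, ∃ ι : (cls (Lo s x₀ g T E) c' i).ConnectedComponent → Fin N,
      Function.Injective ι := by
    intro i
    have := Fintype.ofFinite (cls (Lo s x₀ g T E) c' i).ConnectedComponent
    have h6 := h4 i (Finset.mem_range.2 i.2)
    rw [Nat.card_eq_fintype_card] at h6
    obtain ⟨f⟩ := Function.Embedding.nonempty_of_card_le (by rwa [Fintype.card_fin] :
      Fintype.card (cls (Lo s x₀ g T E) c' i).ConnectedComponent ≤ Fintype.card (Fin N))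
    exact ⟨f, f.injective⟩
  choose ι hι using h5
  obtain ⟨θ⟩ := Function.Embedding.nonempty_of_card_le (by simp :
    Fintype.card (Fin k → Fin N) ≤ Fintype.card (Fin (N ^ k + 1)))
  have hpos : ∀ j : Fin n, 2 * g * (j : ℕ) < T + 1 := by
    intro j
    have : 2 * g * (j : ℕ) ≤ 2 * g * n := Nat.mul_le_mul_left _ j.2.le
    omega
  let pt : Fin n → X × Fin (T + 1) := fun j => (x₀, ⟨2 * g * j, hpos j⟩)
  obtain ⟨e, he, hee⟩ := hcol fun j => θ fun i =>
    ι i ((cls (Lo s x₀ g T E) c' i).connectedComponentMk (pt j))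
  have hreach : ∀ i : Fin k, (cls (Lo s x₀ g T E) c' i).Reachable (pt e.1) (pt e.2) := fun i =>
    ConnectedComponent.eq.1 (hι i (congrFun (θ.injective hee) i))
  have ha1 : (Gr s x₀ g T E).Adj (.inr e) (Function.Embedding.inl (pt e.1)) :=
    adj_iff.2 (Or.inl ⟨he, rfl, Or.inl rfl⟩)
  have ha2 : (Gr s x₀ g T E).Adj (.inr e) (Function.Embedding.inl (pt e.2)) :=
    adj_iff.2 (Or.inl ⟨he, rfl, Or.inr rfl⟩)
  have hi := hr s(Sum.inr e, Function.Embedding.inl (pt e.1)) ha1
  set i := c s(Sum.inr e, Function.Embedding.inl (pt e.1)) with hidef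
  obtain ⟨P, hP⟩ := (hreach ⟨i, hi⟩).exists_isPath
  have hle : cls (Lo s x₀ g T E) c' i ≤ Lo s x₀ g T E := cls_le _ _ _
  obtain ⟨Q, q1, q2, q3, q4⟩ := lift_path (G := Gr s x₀ g T E) Function.Embedding.inl hle P hP
  refine hc (.inr e) _ (Walk.cons ha1 Q) ?_ ?_ ha2 ⟨i, fun f hf => ?_⟩
  · rw [Walk.cons_isPath_iff]
    refine ⟨q1, fun h => ?_⟩
    rw [q3, List.mem_map] at h
    obtain ⟨a, _, h⟩ := h
    exact absurd h (by simp)
  · rw [Walk.length_cons, q2]
    have : P.length ≠ 0 := by
      intro h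
      have h7 := Walk.eq_of_length_eq_zero h
      have h8 := Fin.ext_iff.1 (Prod.ext_iff.1 h7).2
      simp only [pt] at h8
      exact hE0 e he (Fin.ext (Nat.eq_of_mul_eq_mul_left (by omega) h8))
    omega
  · rw [Walk.edges_cons, List.mem_cons] at hf
    rcases hf with rfl | hf
    · rfl
    · rw [q4, List.mem_map] at hf
      obtain ⟨f', hf', rfl⟩ := hf
      exact (mem_cls.1 (P.edges_subset_edgeSet hf')).2

end

theorem lower (k g : ℕ) (hk : 2 ≤ k) (hg : 2 ≤ g) :
    ∃ (V : Type) (_ : Finite V) (G : SimpleGraph V), Degenerate G k ∧ G.Colorable 2 ∧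
      (g : ℕ∞) ≤ G.egirth ∧
      (∀ (r : ℕ) (c : Sym2 V → ℕ), (∀ e ∈ G.edgeSet, c e < r) → Woody G c → k ≤ r) ∧
      ∀ c : Sym2 V → ℕ, (∀ e ∈ G.edgeSet, c e < k) → ¬ StronglyWoody G c := by
  obtain ⟨X, _, ⟨x₀⟩, s, hs, hG⟩ := exists_gir (Fin k) g
  have : Nonempty X := ⟨x₀⟩
  obtain ⟨n, E, -, hE, hcol⟩ := GirCol.exists_graph ((k * Nat.card X) ^ k) g
  have hE0 : ∀ e ∈ E, e.1 ≠ e.2 := fun e he h => hE e he (by rw [h]; exact .refl _ _)
  refine ⟨Vt X (2 * g * n + k) n, inferInstance, Gr s x₀ g (2 * g * n + k) E, deg hk, bip,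
    girth hs hG hE, fun r c hr hc => arb_ge hg hG (by omega) r c hr hc,
    fun c hr => zeta_ge hg hG hE0 (by omega) hcol c hr⟩

end Pool.Agent.KS6_37.SA
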